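import Mathlib

/-!
# Sup norm, boxes and cubes in a ring which is free of finite rank over `ℤ`
-/

namespace Pool.Agent.Helper39K9.AFSR

open Module Finset

section Norm

variable {R : Type*} [CommRing R] {ι : Type*} [Fintype ι] (b : Basis ι ℤ R)

/-- The largest absolute value of a coordinate. -/
noncomputable def nrm (x : R) : ℕ := Finset.univ.sup fun i => (b.repr x i).natAbs

lemma coord_le (x : R) (i : ι) : (b.repr x i).natAbs ≤ nrm b x :=
  Finset.le_sup (f := fun i => (b.repr x i).natAbs) (Finset.mem_univ i)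

lemma nrm_le_iff {x : R} {L : ℕ} : nrm b x ≤ L ↔ ∀ i, (b.repr x i).natAbs ≤ L := by
  unfold nrm
  simp [Finset.sup_le_iff]

lemma nrm_lt_iff {x : R} {L : ℕ} (hL : 0 < L) :
    nrm b x < L ↔ ∀ i, (b.repr x i).natAbs < L := by
  unfold nrm
  rw [Finset.sup_lt_iff (by simpa using hL)]
  simp

@[simp] lemma nrm_zero : nrm b (0 : R) = 0 := by
  apply Nat.le_zero.mp
  rw [nrm_le_iff]
  simp

lemma nrm_eq_zero {x : R} : nrm b x = 0 ↔ x = 0 := by
  constructor
  · intro h
    have h1 := (nrm_le_iff b (x := x) (L := 0)).mp h.le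
    apply b.repr.map_eq_zero_iff.mp
    ext i
    have := h1 i
    simpa using this
  · rintro rfl
    simp

lemma nrm_pos {x : R} (hx : x ≠ 0) : 0 < nrm b x :=
  Nat.pos_of_ne_zero fun h => hx ((nrm_eq_zero b).mp h)

lemma nrm_add_le (x y : R) : nrm b (x + y) ≤ nrm b x + nrm b y := by
  rw [nrm_le_iff]
  intro i
  rw [map_add, Finsupp.add_apply]
  exact (Int.natAbs_add_le _ _).trans (add_le_add (coord_le b x i) (coord_le b y i))

@[simp] lemma nrm_neg (x : R) : nrm b (-x) = nrm b x := by
  unfold nrm
  simp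

lemma nrm_sub_le (x y : R) : nrm b (x - y) ≤ nrm b x + nrm b y := by
  rw [sub_eq_add_neg]
  exact (nrm_add_le b x (-y)).trans (by simp)

lemma nrm_sum_le {κ : Type*} (s : Finset κ) (f : κ → R) :
    nrm b (∑ k ∈ s, f k) ≤ ∑ k ∈ s, nrm b (f k) := by
  classical
  induction s using Finset.induction_on with
  | empty => simp
  | insert a s ha ih =>
    rw [Finset.sum_insert ha, Finset.sum_insert ha]
    exact (nrm_add_le b _ _).trans (by omega)

lemma nrm_zsmul (z : ℤ) (x : R) : nrm b (z • x) ≤ z.natAbs * nrm b x := by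
  rw [nrm_le_iff]
  intro i
  rw [map_smul, Finsupp.smul_apply, smul_eq_mul, Int.natAbs_mul]
  exact Nat.mul_le_mul_left _ (coord_le b x i)

/-- The constant in the bound for products. -/
noncomputable def mulC : ℕ := ∑ i, ∑ j, nrm b (b i * b j)

lemma nrm_mul_le (x y : R) : nrm b (x * y) ≤ mulC b * (nrm b x * nrm b y) := by
  have h1 : x * y = ∑ i, ∑ j, (b.repr x i * b.repr y j) • (b i * b j) := by
    conv_lhs => rw [← b.sum_repr x, ← b.sum_repr y]
    rw [Finset.sum_mul_sum]
    refine Finset.sum_congr rfl fun i _ => Finset.sum_congr rfl fun j _ => ?_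
    rw [smul_mul_smul_comm]
  rw [h1]
  refine (nrm_sum_le b _ _).trans ?_
  unfold mulC
  rw [Finset.sum_mul]
  refine Finset.sum_le_sum fun i _ => ?_
  refine (nrm_sum_le b _ _).trans ?_
  rw [Finset.sum_mul]
  refine Finset.sum_le_sum fun j _ => ?_
  refine (nrm_zsmul b _ _).trans ?_
  rw [mul_comm, Int.natAbs_mul]
  exact Nat.mul_le_mul_left _ (Nat.mul_le_mul (coord_le b x i) (coord_le b y j))

/-- The box of elements of norm at most `L`. -/
noncomputable def box (L : ℕ) : Finset R := by
  classical
  exact (Fintype.piFinset fun _ : ι => Finset.Icc (-(L : ℤ)) L).map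
    ⟨fun v => b.equivFun.symm v, b.equivFun.symm.injective⟩

lemma mem_box {L : ℕ} {x : R} : x ∈ box b L ↔ nrm b x ≤ L := by
  classical
  unfold box
  rw [nrm_le_iff]
  simp only [Finset.mem_map, Fintype.mem_piFinset, Finset.mem_Icc, Function.Embedding.coeFn_mk]
  constructor
  · rintro ⟨v, hv, rfl⟩ i
    have : b.repr (b.equivFun.symm v) i = v i := by
      have := congrFun (b.equivFun.apply_symm_apply v) i
      simpa using this
    rw [this]
    have := hv i
    omega
  · intro h
    refine ⟨b.equivFun x, fun i => ?_, b.equivFun.symm_apply_apply x⟩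
    have := h i
    rw [b.equivFun_apply]
    omega

lemma card_box (L : ℕ) : (box b L).card = (2 * L + 1) ^ Fintype.card ι := by
  classical
  unfold box
  rw [Finset.card_map, Fintype.card_piFinset]
  simp only [Int.card_Icc, Finset.prod_const, Finset.card_univ]
  congr 1
  omega

/-- The cube of elements with coordinates in `{0, …, L - 1}`. -/
noncomputable def cube (L : ℕ) : Finset R := by
  classical
  exact (Fintype.piFinset fun _ : ι => Finset.Ico (0 : ℤ) L).map
    ⟨fun v => b.equivFun.symm v, b.equivFun.symm.injective⟩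

lemma mem_cube {L : ℕ} {x : R} : x ∈ cube b L ↔ ∀ i, 0 ≤ b.repr x i ∧ b.repr x i < L := by
  classical
  unfold cube
  simp only [Finset.mem_map, Fintype.mem_piFinset, Finset.mem_Ico, Function.Embedding.coeFn_mk]
  constructor
  · rintro ⟨v, hv, rfl⟩ i
    have : b.repr (b.equivFun.symm v) i = v i := by
      have := congrFun (b.equivFun.apply_symm_apply v) i
      simpa using this
    rw [this]
    exact hv i
  · intro h
    refine ⟨b.equivFun x, fun i => ?_, b.equivFun.symm_apply_apply x⟩
    rw [b.equivFun_apply]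
    exact h i

lemma card_cube (L : ℕ) : (cube b L).card = L ^ Fintype.card ι := by
  classical
  unfold cube
  rw [Finset.card_map, Fintype.card_piFinset]
  simp

lemma nrm_sub_lt_of_cube {L : ℕ} (hL : 0 < L) {x y : R} (hx : x ∈ cube b L) (hy : y ∈ cube b L) :
    nrm b (x - y) < L := by
  rw [nrm_lt_iff b hL]
  intro i
  have h1 := (mem_cube b).mp hx i
  have h2 := (mem_cube b).mp hy i
  rw [map_sub, Finsupp.sub_apply]
  omega

lemma nrm_le_of_cube {L : ℕ} {x : R} (hx : x ∈ cube b L) :
    nrm b x ≤ L := by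
  rw [nrm_le_iff]
  intro i
  have h1 := (mem_cube b).mp hx i
  omega

lemma finite_nrm_le (L : ℕ) : {x : R | nrm b x ≤ L}.Finite := by
  refine (box b L).finite_toSet.subset fun x hx => ?_
  exact (mem_box b).mpr hx

end Norm

section Index

variable {R : Type*} [CommRing R] [IsDomain R] {ι : Type*} [Fintype ι] [DecidableEq ι]
  (b : Basis ι ℤ R)

include b in
lemma card_quot_eq (h : R) (hh : h ≠ 0) :
    Nat.card (R ⧸ Ideal.span {h}) = (Algebra.norm ℤ h).natAbs := by
  have : Module.Free ℤ R := Module.Free.of_basis b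
  have : Module.Finite ℤ R := Module.Finite.of_basis b
  rw [Algebra.norm_apply]
  have h1 := Submodule.natAbs_det_equiv ((Ideal.span {h}).restrictScalars ℤ)
    (b.equiv (Ideal.basisSpanSingleton b hh) (Equiv.refl _))
  have h2 : Nat.card (R ⧸ Ideal.span {h}) =
      Nat.card (R ⧸ (Ideal.span {h}).restrictScalars ℤ) := rfl
  rw [h2, ← h1]
  congr 2
  refine b.ext fun i => ?_
  have h3 : ((b.equiv (Ideal.basisSpanSingleton b hh) (Equiv.refl _) (b i) :
      Ideal.span {h}) : R) = h * b i := by
    rw [Basis.equiv_apply, Equiv.refl_apply, Ideal.basisSpanSingleton_apply]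
  simp
  exact h3

/-- The constant in the norm bound. -/
noncomputable def idxC : ℕ := (ClassGroup.normBound AbsoluteValue.abs b).natAbs

lemma card_quot_le (h : R) (hh : h ≠ 0) :
    Nat.card (R ⧸ Ideal.span {h}) ≤ idxC b * nrm b h ^ Fintype.card ι := by
  rw [card_quot_eq b h hh]
  have h1 := ClassGroup.norm_le (R := ℤ) AbsoluteValue.abs b h (y := nrm b h) (fun k => by
    have := coord_le b h k
    simp only [AbsoluteValue.abs_apply]
    rw [← Int.natCast_natAbs]
    exact_mod_cast this)
  have h2 : ((Algebra.norm ℤ h).natAbs : ℤ) ≤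
      ((ClassGroup.normBound AbsoluteValue.abs b).natAbs : ℤ) * (nrm b h : ℤ) ^ Fintype.card ι := by
    rw [Int.natCast_natAbs]
    simp only [AbsoluteValue.abs_apply] at h1
    refine h1.trans ?_
    apply mul_le_mul_of_nonneg_right _ (by positivity)
    exact Int.le_natAbs
  unfold idxC
  exact_mod_cast h2

include b in
lemma finite_quot (h : R) (hh : h ≠ 0) : Finite (R ⧸ Ideal.span {h}) := by
  have : Module.Free ℤ R := Module.Free.of_basis b
  have : Module.Finite ℤ R := Module.Finite.of_basis b
  refine Nat.finite_of_card_ne_zero ?_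
  rw [card_quot_eq b h hh]
  intro h0
  exact hh ((Algebra.norm_eq_zero_iff_of_basis b).mp (Int.natAbs_eq_zero.mp h0))

end Index

end Pool.Agent.Helper39K9.AFSR
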