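import Pool.Agent.Helper39K9.AFSR.Cover

/-!
# Counting residues with a short vector
-/

namespace Pool.Agent.Helper39K9.AFSR

open Module Finset

variable {R : Type*} [CommRing R] [IsDomain R] {ι : Type*} [Fintype ι] [DecidableEq ι]
  (b : Basis ι ℤ R)

/-- An ideal containing a nonzero element `g` has few elements in a box, compared with the size of
the kernel of the multiplication by `g` modulo `P`. -/
lemma count_one (P g : R) (hg : g ≠ 0) (Y : ℕ) (hgY : nrm b g ≤ Y)
    [Fintype (R ⧸ Ideal.span {P})] :
    Nat.card {α : R ⧸ Ideal.span {P} // ∃ f : R, nrm b f ≤ Y ∧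
      Ideal.Quotient.mk (Ideal.span {P}) g * α = Ideal.Quotient.mk (Ideal.span {P}) f} ≤
      idxC b * (5 * Y) ^ Fintype.card ι := by
  classical
  set A := R ⧸ Ideal.span {P} with hA
  set q := Ideal.Quotient.mk (Ideal.span {P}) with hq
  have hqs : Function.Surjective q := Ideal.Quotient.mk_surjective
  let φ : A →+ A := AddMonoidHom.mulLeft (q g)
  -- the ideal of elements whose class is a multiple of `g`
  let I : Ideal R := Ideal.comap q (Ideal.span {q g})
  have hIrange : ∀ x : R, x ∈ I ↔ q x ∈ Set.range φ := by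
    intro x
    simp only [I, Ideal.mem_comap, Ideal.mem_span_singleton']
    constructor
    · rintro ⟨a, ha⟩
      exact ⟨a, by simp only [φ, AddMonoidHom.coe_mulLeft]; rw [mul_comm]; exact ha⟩
    · rintro ⟨a, ha⟩
      exact ⟨a, by simp only [φ, AddMonoidHom.coe_mulLeft] at ha; rw [mul_comm]; exact ha⟩
  have hgI : g ∈ I := (hIrange g).mpr ⟨1, by simp [φ]⟩
  -- the least norm of a nonzero element of `I`
  have hex : ∃ k : ℕ, ∃ h ∈ I, h ≠ 0 ∧ nrm b h = k := ⟨_, g, hgI, hg, rfl⟩
  obtain ⟨h, hI, h0, hk⟩ := Nat.find_spec hex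
  set k := Nat.find hex with hkdef
  have hmin : ∀ x ∈ I, x ≠ 0 → k ≤ nrm b x := fun x hx hx0 => Nat.find_min' hex ⟨x, hx, hx0, rfl⟩
  have hkY : k ≤ Y := (hmin g hgI hg).trans hgY
  have hkpos : 0 < k := hk ▸ nrm_pos b h0
  -- kernel bound
  have hker : Nat.card φ.ker ≤ idxC b * k ^ Fintype.card ι := by
    let ψ : A →+ A := AddMonoidHom.mulLeft (q h)
    have h1 : φ.ker ≤ ψ.ker := by
      intro β hβ
      rw [AddMonoidHom.mem_ker] at hβ ⊢
      obtain ⟨s, hs⟩ := (hIrange h).mp hI
      simp only [φ, ψ, AddMonoidHom.coe_mulLeft] at hβ hs ⊢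
      rw [← hs, mul_assoc, mul_comm s β, ← mul_assoc, hβ, zero_mul]
    have h2 : Nat.card φ.ker ≤ Nat.card ψ.ker := AddSubgroup.card_le_of_le h1
    refine h2.trans ?_
    rw [card_ker_eq_index]
    have h3 : ψ.range.index = (ψ.range.comap q.toAddMonoidHom).index :=
      (AddSubgroup.index_comap_of_surjective _ hqs).symm
    rw [h3]
    have h4 : (Ideal.span {h}).toAddSubgroup ≤ ψ.range.comap q.toAddMonoidHom := by
      intro x hx
      have hx' : x ∈ Ideal.span {h} := hx
      rw [Ideal.mem_span_singleton'] at hx'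
      obtain ⟨a, rfl⟩ := hx'
      refine ⟨q a, ?_⟩
      simp only [ψ, AddMonoidHom.coe_mulLeft]
      change q h * q a = q (a * h)
      rw [map_mul, mul_comm]
    have h5 := AddSubgroup.index_dvd_of_le h4
    have h6 : (Ideal.span {h}).toAddSubgroup.index = Nat.card (R ⧸ Ideal.span {h}) := rfl
    have h7 := card_quot_le b h h0
    have h8 := finite_quot b h h0
    rw [hk] at h7
    refine (Nat.le_of_dvd ?_ h5).trans (h6 ▸ h7)
    rw [h6]
    exact Nat.card_pos
  -- bound for the box part of `I`
  have hbox : ((box b Y).filter fun x => x ∈ I).card * k ^ Fintype.card ι ≤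
      (5 * Y) ^ Fintype.card ι := by
    have h1 : (((box b Y).filter fun x => x ∈ I) ×ˢ cube b k).card ≤ (box b (2 * Y)).card := by
      refine Finset.card_le_card_of_injOn (fun p => p.1 + p.2) ?_ ?_
      · rintro ⟨x, c⟩ hxc
        simp only [Finset.coe_product, Set.mem_prod, Finset.mem_coe, Finset.mem_filter] at hxc
        have hx := (mem_box b).mp hxc.1.1
        have hc := nrm_le_of_cube b hxc.2
        simp only [Finset.mem_coe, mem_box]
        exact (nrm_add_le b x c).trans (by omega)
      · rintro ⟨x, c⟩ hxc ⟨x', c'⟩ hxc' heq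
        simp only [Finset.coe_product, Set.mem_prod, Finset.mem_coe, Finset.mem_filter] at hxc hxc'
        simp only at heq
        have hlt := nrm_sub_lt_of_cube b hkpos hxc'.2 hxc.2
        have hmem : x - x' ∈ I := I.sub_mem hxc.1.2 hxc'.1.2
        have heq2 : x - x' = c' - c := by linear_combination heq
        have hz : x - x' = 0 := by
          by_contra hne
          have := hmin _ hmem hne
          rw [heq2] at this
          omega
        have hx : x = x' := sub_eq_zero.mp hz
        have hc : c = c' := by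
          rw [heq2] at hz
          exact (sub_eq_zero.mp hz).symm
        rw [hx, hc]
    rw [Finset.card_product, card_cube, card_box] at h1
    refine h1.trans (Nat.pow_le_pow_left (by omega) _)
  -- put everything together
  have hcard := card_preimage_le φ ((box b Y).image q)
  have hT : Nat.card {α : A // ∃ f : R, nrm b f ≤ Y ∧ q g * α = q f} =
      (Finset.univ.filter fun a => φ a ∈ (box b Y).image q).card := by
    rw [Nat.card_eq_fintype_card, Fintype.card_subtype]
    congr 1
    ext a
    simp only [Finset.mem_filter, Finset.mem_univ, true_and, Finset.mem_image, φ,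
      AddMonoidHom.coe_mulLeft]
    constructor
    · rintro ⟨f, h1, h2⟩
      exact ⟨f, (mem_box b).mpr h1, h2.symm⟩
    · rintro ⟨f, h1, h2⟩
      exact ⟨f, (mem_box b).mp h1, h2.symm⟩
  rw [hT]
  refine hcard.trans ?_
  have hF : (((box b Y).image q).filter fun y => y ∈ Set.range φ).card ≤
      ((box b Y).filter fun x => x ∈ I).card := by
    have : (((box b Y).image q).filter fun y => y ∈ Set.range φ) ⊆
        ((box b Y).filter fun x => x ∈ I).image q := by
      intro y hy
      obtain ⟨hy1, hy2⟩ := Finset.mem_filter.mp hy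
      obtain ⟨x, hx, rfl⟩ := Finset.mem_image.mp hy1
      exact Finset.mem_image.mpr ⟨x, Finset.mem_filter.mpr ⟨hx, (hIrange x).mpr hy2⟩, rfl⟩
    exact (Finset.card_le_card this).trans Finset.card_image_le
  calc (((box b Y).image q).filter fun y => y ∈ Set.range φ).card * Nat.card φ.ker
      ≤ ((box b Y).filter fun x => x ∈ I).card * (idxC b * k ^ Fintype.card ι) :=
        Nat.mul_le_mul hF hker
    _ = idxC b * (((box b Y).filter fun x => x ∈ I).card * k ^ Fintype.card ι) := by ring
    _ ≤ idxC b * (5 * Y) ^ Fintype.card ι := Nat.mul_le_mul_left _ hbox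

/-- The constant in the count of the residues with a short vector. -/
noncomputable def cntC (p : R) : ℕ :=
  idxC b * 15 ^ Fintype.card ι * (mulC b * nrm b p + 1) ^ (2 * Fintype.card ι)

lemma count_two (P p : R) (hp : p ≠ 0) (X : ℕ) (hX : 0 < X)
    [Fintype (R ⧸ Ideal.span {P})] :
    Nat.card {α : R ⧸ Ideal.span {P} // ∃ f g : R, (f ≠ 0 ∨ g ≠ 0) ∧ nrm b f < X ∧ nrm b g < X ∧
      Ideal.Quotient.mk (Ideal.span {P}) (g * p) * α = Ideal.Quotient.mk (Ideal.span {P}) f} ≤
      cntC b p * X ^ (2 * Fintype.card ι) := by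
  classical
  set A := R ⧸ Ideal.span {P} with hA
  set q := Ideal.Quotient.mk (Ideal.span {P}) with hq
  set M := mulC b * nrm b p + 1 with hM
  have hMpos : 0 < M := Nat.succ_pos _
  set Y := M * X with hY
  have hYpos : 0 < Y := Nat.mul_pos hMpos hX
  have hXY : X ≤ Y := Nat.le_mul_of_pos_left _ hMpos
  set T := {α : A // ∃ f g : R, (f ≠ 0 ∨ g ≠ 0) ∧ nrm b f < X ∧ nrm b g < X ∧
      q (g * p) * α = q f} with hT
  by_cases hcase : ∃ f : R, f ≠ 0 ∧ nrm b f < X ∧ q f = 0
  · obtain ⟨f, hf0, hfX, hqf⟩ := hcase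
    have h1 : Nat.card T ≤ Nat.card A := Nat.card_le_card_of_injective _ Subtype.val_injective
    have h2 : Nat.card A ≤ Nat.card (R ⧸ Ideal.span {f}) := by
      have hle : Ideal.span {f} ≤ Ideal.span {P} := by
        rw [Ideal.span_singleton_le_iff_mem]
        exact Ideal.Quotient.eq_zero_iff_mem.mp hqf
      have := finite_quot b f hf0
      exact Nat.card_le_card_of_surjective _ (Ideal.Quotient.factor_surjective hle)
    have h3 := card_quot_le b f hf0
    have h4 : nrm b f ^ Fintype.card ι ≤ Y ^ Fintype.card ι :=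
      Nat.pow_le_pow_left (hfX.le.trans hXY) _
    have h5 : Y ^ Fintype.card ι ≤ Y ^ (2 * Fintype.card ι) :=
      Nat.pow_le_pow_right hYpos (by omega)
    calc Nat.card T ≤ idxC b * Y ^ (2 * Fintype.card ι) :=
          h1.trans (h2.trans (h3.trans (Nat.mul_le_mul_left _ (h4.trans h5))))
      _ ≤ (idxC b * 15 ^ Fintype.card ι) * Y ^ (2 * Fintype.card ι) := by
          apply Nat.mul_le_mul_right
          exact Nat.le_mul_of_pos_right _ (by positivity)
      _ = cntC b p * X ^ (2 * Fintype.card ι) := by
          unfold cntC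
          rw [hY, mul_pow]
          ring
  · push Not at hcase
    -- union over the nonzero elements of the box
    have hcover : (Finset.univ.filter fun α : A => ∃ f g : R, (f ≠ 0 ∨ g ≠ 0) ∧ nrm b f < X ∧
        nrm b g < X ∧ q (g * p) * α = q f) ⊆
        ((box b Y).filter fun g => g ≠ 0).biUnion fun g =>
          Finset.univ.filter fun α : A => ∃ f : R, nrm b f ≤ Y ∧ q g * α = q f := by
      intro α hα
      simp only [Finset.mem_filter, Finset.mem_univ, true_and, Finset.mem_biUnion] at hα ⊢
      obtain ⟨f, g, hfg, hf, hg, hα⟩ := hα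
      have hg0 : g ≠ 0 := by
        rintro rfl
        have hf0 : f ≠ 0 := by simpa using hfg
        refine hcase f hf0 hf ?_
        rw [← hα]
        simp
      refine ⟨g * p, ⟨?_, mul_ne_zero hg0 hp⟩, f, (hf.le.trans hXY), hα⟩
      rw [mem_box]
      refine (nrm_mul_le b g p).trans ?_
      calc mulC b * (nrm b g * nrm b p) = (mulC b * nrm b p) * nrm b g := by ring
        _ ≤ M * X := Nat.mul_le_mul (by omega) hg.le
    have h1 : Nat.card T = (Finset.univ.filter fun α : A => ∃ f g : R, (f ≠ 0 ∨ g ≠ 0) ∧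
        nrm b f < X ∧ nrm b g < X ∧ q (g * p) * α = q f).card := by
      rw [hT, Nat.card_eq_fintype_card, Fintype.card_subtype]
    rw [h1]
    refine (Finset.card_le_card hcover).trans ?_
    refine Finset.card_biUnion_le.trans ?_
    have h2 : ∀ g ∈ ((box b Y).filter fun g => g ≠ 0),
        (Finset.univ.filter fun α : A => ∃ f : R, nrm b f ≤ Y ∧ q g * α = q f).card ≤
        idxC b * (5 * Y) ^ Fintype.card ι := by
      intro g hg
      obtain ⟨hg1, hg2⟩ := Finset.mem_filter.mp hg
      have := count_one b P g hg2 Y ((mem_box b).mp hg1)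
      rw [Nat.card_eq_fintype_card, Fintype.card_subtype] at this
      exact this
    refine (Finset.sum_le_card_nsmul _ _ _ h2).trans ?_
    have h3 : ((box b Y).filter fun g => g ≠ 0).card ≤ (3 * Y) ^ Fintype.card ι := by
      refine (Finset.card_filter_le _ _).trans ?_
      rw [card_box]
      exact Nat.pow_le_pow_left (by omega) _
    rw [smul_eq_mul]
    calc _ ≤ (3 * Y) ^ Fintype.card ι * (idxC b * (5 * Y) ^ Fintype.card ι) :=
          Nat.mul_le_mul_right _ h3
      _ = cntC b p * X ^ (2 * Fintype.card ι) := by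
          unfold cntC
          rw [hY, show (15 : ℕ) = 3 * 5 by norm_num]
          simp only [mul_pow, two_mul, pow_add]
          ring

end Pool.Agent.Helper39K9.AFSR
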