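import Pool.Agent.Helper39K9.AFSR.Basic

/-!
# Sumsets of a dense symmetric generating set cover a finite abelian group quickly
-/

namespace Pool.Agent.Helper39K9.AFSR

open Finset

section Cover

variable {A : Type*} [AddCommGroup A] [Fintype A] [DecidableEq A]

/-- The `i`-fold sumset. -/
def sums (V : Finset A) : ℕ → Finset A
  | 0 => {0}
  | i + 1 => (sums V i ×ˢ V).image fun p => p.1 + p.2

lemma mem_sums_succ {V : Finset A} {i : ℕ} {x : A} :
    x ∈ sums V (i + 1) ↔ ∃ s ∈ sums V i, ∃ v ∈ V, s + v = x := by
  simp only [sums, Finset.mem_image, Finset.mem_product, Prod.exists]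
  constructor
  · rintro ⟨a, b, ⟨h1, h2⟩, h3⟩
    exact ⟨a, h1, b, h2, h3⟩
  · rintro ⟨a, h1, b, h2, h3⟩
    exact ⟨a, b, ⟨h1, h2⟩, h3⟩

lemma sums_mono {V : Finset A} (h0 : (0 : A) ∈ V) (i : ℕ) : sums V i ⊆ sums V (i + 1) := by
  intro x hx
  exact mem_sums_succ.mpr ⟨x, hx, 0, h0, add_zero x⟩

lemma sums_univ_of_stable {V : Finset A}
    (hgen : AddSubgroup.closure (V : Set A) = ⊤) {i : ℕ} (h : sums V (i + 1) ⊆ sums V i)
    (hz : (0 : A) ∈ sums V i) : sums V i = Finset.univ := by
  have key : ∀ x ∈ AddSubgroup.closure (V : Set A), ∀ s ∈ sums V i, s + x ∈ sums V i := by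
    intro x hx
    induction hx using AddSubgroup.closure_induction with
    | mem v hv => intro s hs; exact h (mem_sums_succ.mpr ⟨s, hs, v, hv, rfl⟩)
    | zero => intro s hs; simpa using hs
    | add x y _ _ hx hy => intro s hs; rw [← add_assoc]; exact hy _ (hx _ hs)
    | neg x hx hx' =>
      intro s hs
      -- translation by `x` is an injective self-map of a finite set
      have hinj : Set.InjOn (fun s => s + x) (sums V i : Set A) := fun a _ b _ hab =>
        add_right_cancel hab
      have hmaps : Set.MapsTo (fun s => s + x) (sums V i : Set A) (sums V i : Set A) :=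
        fun a ha => hx' a ha
      have hsurj := (sums V i).surjOn_of_injOn_of_card_le (t := sums V i) (fun s => s + x)
        hmaps hinj le_rfl
      obtain ⟨t, ht, hts⟩ := hsurj hs
      have : s + -x = t := by
        simp only at hts
        rw [← hts]; abel
      rw [this]; exact ht
  ext x
  simp only [Finset.mem_univ, iff_true]
  have := key x (by rw [hgen]; trivial) 0 hz
  simpa using this

lemma zero_mem_sums {V : Finset A} (h0 : (0 : A) ∈ V) (i : ℕ) : (0 : A) ∈ sums V i := by
  induction i with
  | zero => simp [sums]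
  | succ i ih => exact sums_mono h0 i ih

lemma sums_step {V : Finset A} (h0 : (0 : A) ∈ V) (hneg : ∀ v ∈ V, -v ∈ V)
    (hgen : AddSubgroup.closure (V : Set A) = ⊤) (i : ℕ) :
    sums V (i + 3) = Finset.univ ∨ (sums V i).card + V.card ≤ (sums V (i + 3)).card := by
  by_cases h : sums V (i + 2) ⊆ sums V (i + 1)
  · left
    have h1 := sums_univ_of_stable hgen h (zero_mem_sums h0 _)
    have h2 : sums V (i + 1) ⊆ sums V (i + 3) :=
      (sums_mono h0 (i + 1)).trans (sums_mono h0 (i + 2))
    rw [h1] at h2
    exact Finset.univ_subset_iff.mp h2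
  · right
    rw [Finset.not_subset] at h
    obtain ⟨x, hx2, hx1⟩ := h
    have hdisj : Disjoint (sums V i) (V.image fun v => x + v) := by
      rw [Finset.disjoint_left]
      intro y hy hy2
      obtain ⟨v, hv, rfl⟩ := Finset.mem_image.mp hy2
      apply hx1
      exact mem_sums_succ.mpr ⟨x + v, hy, -v, hneg v hv, by abel⟩
    have hsub : (sums V i) ∪ (V.image fun v => x + v) ⊆ sums V (i + 3) := by
      apply Finset.union_subset
      · exact ((sums_mono h0 i).trans (sums_mono h0 (i + 1))).trans (sums_mono h0 (i + 2))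
      · intro y hy
        obtain ⟨v, hv, rfl⟩ := Finset.mem_image.mp hy
        exact mem_sums_succ.mpr ⟨x, hx2, v, hv, rfl⟩
    have hcard : (V.image fun v => x + v).card = V.card :=
      Finset.card_image_of_injective _ (add_right_injective x)
    calc (sums V i).card + V.card = (sums V i).card + (V.image fun v => x + v).card := by
          rw [hcard]
      _ = ((sums V i) ∪ (V.image fun v => x + v)).card := (Finset.card_union_of_disjoint hdisj).symm
      _ ≤ _ := Finset.card_le_card hsub

lemma sums_cover {V : Finset A} (h0 : (0 : A) ∈ V) (hneg : ∀ v ∈ V, -v ∈ V)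
    (hgen : AddSubgroup.closure (V : Set A) = ⊤) (i : ℕ) :
    sums V (3 * i) = Finset.univ ∨ i * V.card ≤ (sums V (3 * i)).card := by
  induction i with
  | zero => right; simp
  | succ i ih =>
    rcases ih with ih | ih
    · left
      have h2 : sums V (3 * i) ⊆ sums V (3 * (i + 1)) :=
        (sums_mono h0 (3 * i)).trans ((sums_mono h0 (3 * i + 1)).trans (sums_mono h0 (3 * i + 2)))
      rw [ih] at h2
      exact Finset.univ_subset_iff.mp h2
    · rcases sums_step h0 hneg hgen (3 * i) with h | h
      · left; exact h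
      · right
        have : 3 * (i + 1) = 3 * i + 3 := by ring
        rw [this, add_mul, one_mul]
        omega

lemma sums_eq_univ {V : Finset A} (h0 : (0 : A) ∈ V) (hneg : ∀ v ∈ V, -v ∈ V)
    (hgen : AddSubgroup.closure (V : Set A) = ⊤) {i : ℕ} (hi : Fintype.card A < i * V.card) :
    sums V (3 * i) = Finset.univ := by
  rcases sums_cover h0 hneg hgen i with h | h
  · exact h
  · exfalso
    have := Finset.card_le_univ (sums V (3 * i))
    omega

end Cover

section Ker

/-- In a finite abelian group, the number of elements which a homomorphism sends into `F` is at most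
`|F ∩ range| * |ker|`. -/
lemma card_preimage_le {A B : Type*} [AddCommGroup A] [Fintype A] [AddCommGroup B]
    [DecidableEq B] (φ : A →+ B) (F : Finset B) :
    (Finset.univ.filter fun a => φ a ∈ F).card ≤
      (F.filter fun y => y ∈ Set.range φ).card * Nat.card φ.ker := by
  classical
  have h1 : (Finset.univ.filter fun a => φ a ∈ F) =
      (F.filter fun y => y ∈ Set.range φ).biUnion fun y => Finset.univ.filter fun a => φ a = y := by
    ext a
    simp only [Finset.mem_filter, Finset.mem_univ, true_and, Finset.mem_biUnion, Set.mem_range]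
    constructor
    · intro h
      exact ⟨φ a, ⟨h, a, rfl⟩, rfl⟩
    · rintro ⟨y, ⟨h, _⟩, rfl⟩
      exact h
  rw [h1]
  refine Finset.card_biUnion_le.trans ?_
  rw [← smul_eq_mul]
  refine Finset.sum_le_card_nsmul _ _ _ fun y hy => ?_
  have hy2 := (Finset.mem_filter.mp hy).2
  rw [AddMonoidHom.card_fiber_eq_of_mem_range φ (x := y) (y := 0) hy2 ⟨0, map_zero φ⟩]
  rw [Nat.card_eq_fintype_card, Fintype.card_subtype]
  apply le_of_eq
  congr 1
  ext g
  simp [AddMonoidHom.mem_ker]

lemma card_ker_eq_index {A : Type*} [AddCommGroup A] [Finite A] (φ : A →+ A) :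
    Nat.card φ.ker = φ.range.index := by
  have h1 := AddSubgroup.card_mul_index φ.ker
  have h2 := AddSubgroup.card_mul_index φ.range
  rw [AddSubgroup.index_ker] at h1
  have h3 : 0 < Nat.card φ.range := Nat.card_pos
  have h4 : Nat.card φ.range * Nat.card φ.ker = Nat.card φ.range * φ.range.index := by
    rw [h2, mul_comm]
    exact h1
  exact Nat.eq_of_mul_eq_mul_left h3 h4

end Ker

end Pool.Agent.Helper39K9.AFSR
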