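import Pool.Agent.Helper39K9.AFSR.Exist

/-!
# Digit expansions modulo a power of `π`
-/

namespace Pool.Agent.Helper39K9.AFSR

open Module Finset

variable {R : Type*} [CommRing R] [IsDomain R] {N : ℕ}

/-- The truncated `π`-adic number of a finite sequence of digits. -/
def val (p : R) {n : ℕ} (a : Fin n → Fin N) : R := ∑ i : Fin n, ((a i : ℕ) : R) * p ^ (i : ℕ)

omit [IsDomain R] in
lemma val_cons (p : R) {n : ℕ} (c : Fin N) (a : Fin n → Fin N) :
    val p (Fin.cons c a : Fin (n + 1) → Fin N) = ((c : ℕ) : R) + p * val p a := by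
  unfold val
  rw [Fin.sum_univ_succ]
  simp only [Fin.cons_zero, Fin.val_zero, pow_zero, mul_one, Fin.cons_succ, Fin.val_succ]
  rw [Finset.mul_sum]
  congr 1
  refine Finset.sum_congr rfl fun i _ => ?_
  rw [pow_succ]
  ring

variable (p : R) (hdig : ∀ x : R, ∃! c : Fin N, p ∣ x - ((c : ℕ) : R))

include hdig in
lemma val_surj (n : ℕ) : ∀ x : R, ∃ a : Fin n → Fin N, p ^ n ∣ x - val p a := by
  induction n with
  | zero => intro x; exact ⟨Fin.elim0, by simp⟩
  | succ n ih =>
    intro x
    obtain ⟨c, ⟨y, hy⟩, -⟩ := hdig x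
    obtain ⟨a, z, hz⟩ := ih y
    refine ⟨Fin.cons c a, z, ?_⟩
    rw [val_cons, pow_succ]
    linear_combination hy + p * hz

include hdig in
lemma val_inj (hp : p ≠ 0) (n : ℕ) : ∀ a a' : Fin n → Fin N,
    p ^ n ∣ val p a - val p a' → a = a' := by
  induction n with
  | zero => intro a a' _; exact Subsingleton.elim _ _
  | succ n ih =>
    intro a a' h
    rw [← Fin.cons_self_tail a, ← Fin.cons_self_tail a'] at h ⊢
    rw [val_cons, val_cons] at h
    obtain ⟨z, hz⟩ := h
    have h1 : a 0 = a' 0 := by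
      obtain ⟨c, _, hc⟩ := hdig ((a 0 : ℕ) : R)
      have e1 := hc (a 0) (by simp)
      have e2 := hc (a' 0) (by
        refine ⟨p ^ n * z - (val p (Fin.tail a) - val p (Fin.tail a')), ?_⟩
        rw [pow_succ] at hz
        linear_combination hz)
      exact e1.trans e2.symm
    have h2 : Fin.tail a = Fin.tail a' := by
      apply ih
      refine ⟨z, ?_⟩
      apply mul_left_cancel₀ hp
      rw [h1, pow_succ] at hz
      linear_combination hz
    rw [h1, h2]

/-- The residues modulo `π ^ n` correspond to the sequences of `n` digits. -/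
lemma bij (hdig : ∀ x : R, ∃! c : Fin N, p ∣ x - ((c : ℕ) : R)) (hp : p ≠ 0) (n : ℕ) :
    Function.Bijective fun a : Fin n → Fin N =>
      Ideal.Quotient.mk (Ideal.span {p ^ n}) (val p a) := by
  constructor
  · intro a a' h
    apply val_inj p hdig hp n
    rw [← Ideal.mem_span_singleton]
    exact (Ideal.Quotient.mk_eq_mk_iff_sub_mem _ _).mp h
  · intro y
    obtain ⟨x, rfl⟩ := Ideal.Quotient.mk_surjective y
    obtain ⟨a, ha⟩ := val_surj p hdig n x
    refine ⟨a, ?_⟩
    rw [eq_comm]
    apply (Ideal.Quotient.mk_eq_mk_iff_sub_mem _ _).mpr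
    rw [Ideal.mem_span_singleton]
    exact ha

omit [IsDomain R] in
include hdig in
lemma not_unit (hN : 2 ≤ N) : ¬ p ∣ 1 := by
  intro h
  obtain ⟨c, _, hc⟩ := hdig 0
  have e0 := hc ⟨0, by omega⟩ ((h.trans (one_dvd _)))
  have e1 := hc ⟨1, by omega⟩ ((h.trans (one_dvd _)))
  have := e0.trans e1.symm
  simp at this

omit [IsDomain R] in
/-- Every fraction with denominator invertible modulo `π` has a `π`-adic digit expansion. -/
lemma exists_expansion (hdig : ∀ x : R, ∃! c : Fin N, p ∣ x - ((c : ℕ) : R)) (f g : R)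
    (hg : ∃ h, p ∣ g * h - 1) : ∃ t : ℕ → Fin N, ∀ m, p ^ m ∣
      f - g * ∑ i ∈ Finset.range m, ((t i : ℕ) : R) * p ^ i := by
  obtain ⟨h, hh⟩ := hg
  -- one step of the register
  have step : ∀ y : R, ∃ c : Fin N, ∃ z : R, y - g * ((c : ℕ) : R) = p * z := by
    intro y
    obtain ⟨c, ⟨w, hw⟩, -⟩ := hdig (h * y)
    obtain ⟨v, hv⟩ := hh
    refine ⟨c, g * w - v * y, ?_⟩
    linear_combination g * hw - y * hv
  choose c z hz using step
  let s : ℕ → R := fun i => Nat.rec f (fun _ y => z y) i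
  have hs : ∀ i, s (i + 1) = z (s i) := fun i => rfl
  refine ⟨fun i => c (s i), fun m => ⟨s m, ?_⟩⟩
  induction m with
  | zero => simp [s]
  | succ m ih =>
    rw [Finset.sum_range_succ, hs, pow_succ]
    have := hz (s m)
    linear_combination ih + p ^ m * this

end Pool.Agent.Helper39K9.AFSR
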