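import Pool.Agent.Helper39K9.AFSR.Count

/-!
# Existence of a representation when there is no short vector
-/

namespace Pool.Agent.Helper39K9.AFSR

open Module Finset

variable {R : Type*} [CommRing R] {ι : Type*} [Fintype ι] [DecidableEq ι]
  (b : Basis ι ℤ R)

lemma nrm_basis (i : ι) : nrm b (b i) ≤ 1 := by
  rw [nrm_le_iff]
  intro j
  rw [b.repr_self]
  by_cases h : i = j
  · subst h; simp
  · rw [Finsupp.single_apply, if_neg h]; simp

lemma exists_rep (P p : R) (X : ℕ) (hX : 0 < X) [Fintype (R ⧸ Ideal.span {P})]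
    (α : R ⧸ Ideal.span {P})
    (hα : ∀ f g : R, nrm b f < X → nrm b g < X →
      Ideal.Quotient.mk (Ideal.span {P}) (g * p) * α = Ideal.Quotient.mk (Ideal.span {P}) f →
      f = 0 ∧ g = 0) (i : ℕ)
    (hi : Fintype.card (R ⧸ Ideal.span {P}) < i * X ^ (2 * Fintype.card ι)) :
    ∃ f g : R, nrm b f ≤ 3 * i * X ∧ nrm b g ≤ 3 * i * X ∧
      Ideal.Quotient.mk (Ideal.span {P}) (1 + g * p) * α =
        Ideal.Quotient.mk (Ideal.span {P}) f := by
  classical
  set q := Ideal.Quotient.mk (Ideal.span {P}) with hq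
  have hqs : Function.Surjective q := Ideal.Quotient.mk_surjective
  set F : R × R → R ⧸ Ideal.span {P} := fun w => q (w.1 * p) * α - q w.2 with hF
  set V : Finset (R ⧸ Ideal.span {P}) := (box b X ×ˢ box b X).image F with hV
  have hFadd : ∀ w w', F (w + w') = F w + F w' := by
    intro w w'
    simp only [hF, Prod.fst_add, Prod.snd_add, add_mul, map_add]
    ring
  have hFneg : ∀ w, F (-w) = -F w := by
    intro w
    simp only [hF, Prod.fst_neg, Prod.snd_neg, neg_mul, map_neg]
    ring
  have h0 : (0 : R ⧸ Ideal.span {P}) ∈ V := by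
    refine Finset.mem_image.mpr ⟨(0, 0), ?_, ?_⟩
    · simp [mem_box]
    · simp [hF]
  have hneg : ∀ v ∈ V, -v ∈ V := by
    intro v hv
    obtain ⟨w, hw, rfl⟩ := Finset.mem_image.mp hv
    refine Finset.mem_image.mpr ⟨-w, ?_, hFneg w⟩
    simp only [Finset.mem_product, mem_box, Prod.fst_neg, Prod.snd_neg, nrm_neg] at hw ⊢
    exact hw
  have hgen : AddSubgroup.closure (V : Set (R ⧸ Ideal.span {P})) = ⊤ := by
    rw [eq_top_iff]
    rintro y -
    obtain ⟨x, rfl⟩ := hqs y
    rw [← b.sum_repr x, map_sum]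
    refine AddSubgroup.sum_mem _ fun j _ => ?_
    have : q (b.repr x j • b j) = b.repr x j • q (b j) := map_zsmul q _ _
    rw [this]
    refine AddSubgroup.zsmul_mem _ ?_ _
    have hm : -q (b j) ∈ (V : Set (R ⧸ Ideal.span {P})) := by
      refine Finset.mem_coe.mpr (Finset.mem_image.mpr ⟨(0, b j), ?_, ?_⟩)
      · simp only [Finset.mem_product, mem_box, nrm_zero]
        exact ⟨Nat.zero_le _, (nrm_basis b j).trans hX⟩
      · simp [hF]
    have := AddSubgroup.neg_mem _ (AddSubgroup.subset_closure hm)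
    simpa using this
  have hcardV : X ^ (2 * Fintype.card ι) ≤ V.card := by
    have h1 : (cube b X ×ˢ cube b X).card = X ^ (2 * Fintype.card ι) := by
      rw [Finset.card_product, card_cube, two_mul, pow_add]
    rw [← h1]
    refine Finset.card_le_card_of_injOn F ?_ ?_
    · rintro ⟨g, x⟩ hw
      simp only [Finset.coe_product, Set.mem_prod, Finset.mem_coe] at hw
      refine Finset.mem_coe.mpr (Finset.mem_image.mpr ⟨(g, x), ?_, rfl⟩)
      simp only [Finset.mem_product, mem_box]
      exact ⟨nrm_le_of_cube b hw.1, nrm_le_of_cube b hw.2⟩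
    · rintro ⟨g, x⟩ hw ⟨g', x'⟩ hw' heq
      simp only [Finset.coe_product, Set.mem_prod, Finset.mem_coe] at hw hw'
      simp only [hF] at heq
      have h2 : q ((g - g') * p) * α = q (x - x') := by
        rw [sub_mul, map_sub, map_sub, sub_mul]
        linear_combination heq
      obtain ⟨h3, h4⟩ := hα _ _ (nrm_sub_lt_of_cube b hX hw.2 hw'.2)
        (nrm_sub_lt_of_cube b hX hw.1 hw'.1) h2
      rw [sub_eq_zero.mp h3, sub_eq_zero.mp h4]
  have hcov := sums_eq_univ h0 hneg hgen (i := i)
    (hi.trans_le (Nat.mul_le_mul_left i hcardV))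
  have hsum : ∀ r : ℕ, ∀ y ∈ sums V r, ∃ w : R × R, nrm b w.1 ≤ r * X ∧ nrm b w.2 ≤ r * X ∧
      F w = y := by
    intro r
    induction r with
    | zero =>
      intro y hy
      have hy0 : y = 0 := by simpa [sums] using hy
      subst hy0
      exact ⟨(0, 0), by simp, by simp, by simp [hF]⟩
    | succ r ih =>
      intro y hy
      obtain ⟨s, hs, v, hv, rfl⟩ := mem_sums_succ.mp hy
      obtain ⟨w, hw1, hw2, rfl⟩ := ih s hs
      obtain ⟨w', hw', rfl⟩ := Finset.mem_image.mp hv
      simp only [Finset.mem_product, mem_box] at hw'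
      refine ⟨w + w', ?_, ?_, hFadd w w'⟩
      · rw [Prod.fst_add]
        refine (nrm_add_le b _ _).trans ?_
        have := hw'.1
        calc nrm b w.1 + nrm b w'.1 ≤ r * X + X := by omega
          _ = (r + 1) * X := by ring
      · rw [Prod.snd_add]
        refine (nrm_add_le b _ _).trans ?_
        have := hw'.2
        calc nrm b w.2 + nrm b w'.2 ≤ r * X + X := by omega
          _ = (r + 1) * X := by ring
  obtain ⟨w, hw1, hw2, hw3⟩ := hsum (3 * i) (-α) (by rw [hcov]; exact Finset.mem_univ _)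
  refine ⟨w.2, w.1, hw2, hw1, ?_⟩
  simp only [hF] at hw3
  rw [map_add, map_one, add_mul, one_mul]
  linear_combination hw3

end Pool.Agent.Helper39K9.AFSR
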