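import Pool.Agent.Helper39K9.AFSR.Digits

/-!
# The average complexity of finite sequences
-/

namespace Pool.Agent.Helper39K9.AFSR

open Module Finset

lemma geom_le (M K : ℕ) (hM : 2 ≤ M) : ∑ k ∈ Finset.Icc 1 K, M ^ k ≤ 2 * M ^ K := by
  induction K with
  | zero => simp
  | succ K ih =>
    rw [Finset.sum_Icc_succ_top (by omega)]
    have : 2 * M ^ K ≤ M ^ (K + 1) := by
      rw [pow_succ, mul_comm]
      exact Nat.mul_le_mul_left _ hM
    omega

/-- Bookkeeping: if `H 0` holds then the distance from `K` to the greatest good index is at most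
the number of bad indices. -/
lemma findGreatest_bad (H : ℕ → Prop) [DecidablePred H] (K : ℕ) :
    K ≤ Nat.findGreatest H K + ((Finset.Icc 1 K).filter fun k => ¬ H k).card := by
  have h1 : Finset.Ioc (Nat.findGreatest H K) K ⊆ (Finset.Icc 1 K).filter fun k => ¬ H k := by
    intro k hk
    rw [Finset.mem_Ioc] at hk
    rw [Finset.mem_filter, Finset.mem_Icc]
    exact ⟨⟨by omega, hk.2⟩, Nat.findGreatest_is_greatest hk.1 hk.2⟩
  have h2 := Finset.card_le_card h1
  rw [Nat.card_Ioc] at h2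
  omega

variable {R : Type*} [CommRing R]

/-- The size of a register with output `f / g`, where the size of `0` is `-∞`. -/
noncomputable def regSize (φ : R → ℝ) (f g : R) : ℝ := by
  classical
  exact if f = 0 then φ g else max (φ f) (φ g)

section

variable {ι : Type*} [Fintype ι] (b : Basis ι ℤ R) {N : ℕ} (φ : R → ℝ)

lemma regSize_le (hN : 2 ≤ N)
    (hφ : ∀ x ≠ 0, φ x ≤ Fintype.card ι * Real.logb N (nrm b x) + Fintype.card ι)
    {f g : R} (hg : g ≠ 0) {B : ℕ} (hf1 : nrm b f ≤ B) (hg1 : nrm b g ≤ B) :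
    regSize φ f g ≤ Fintype.card ι * Real.logb N B + Fintype.card ι := by
  have hN1 : (1 : ℝ) < N := by exact_mod_cast (by omega : 1 < N)
  have key : ∀ x ≠ 0, nrm b x ≤ B → φ x ≤ Fintype.card ι * Real.logb N B + Fintype.card ι := by
    intro x hx hxB
    refine (hφ x hx).trans ?_
    have h0 : (0 : ℝ) < nrm b x := by exact_mod_cast nrm_pos b hx
    have h1 : Real.logb N (nrm b x) ≤ Real.logb N B :=
      Real.logb_le_logb_of_le hN1 h0 (by exact_mod_cast hxB)
    gcongr
  unfold regSize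
  split_ifs with hf
  · exact key g hg hg1
  · exact max_le (key f hf hf1) (key g hg hg1)

lemma le_regSize (hN : 2 ≤ N)
    (hφ : ∀ x ≠ 0, Fintype.card ι * Real.logb N (nrm b x) ≤ φ x)
    {f g : R} (hg : g ≠ 0) {B : ℕ} (hB : 0 < B) (h : B ≤ max (nrm b f) (nrm b g)) :
    Fintype.card ι * Real.logb N B ≤ regSize φ f g := by
  have hN1 : (1 : ℝ) < N := by exact_mod_cast (by omega : 1 < N)
  have key : ∀ x ≠ 0, B ≤ nrm b x → Fintype.card ι * Real.logb N B ≤ φ x := by
    intro x hx hxB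
    refine le_trans ?_ (hφ x hx)
    have h0 : (0 : ℝ) < B := by exact_mod_cast hB
    have h1 : Real.logb N B ≤ Real.logb N (nrm b x) :=
      Real.logb_le_logb_of_le hN1 h0 (by exact_mod_cast hxB)
    gcongr
  unfold regSize
  rcases le_max_iff.mp h with h1 | h1
  · have hf : f ≠ 0 := by
      rintro rfl
      rw [nrm_zero] at h1
      omega
    rw [if_neg hf]
    exact (key f hf h1).trans (le_max_left _ _)
  · split_ifs with hf
    · exact key g hg h1
    · exact (key g hg h1).trans (le_max_right _ _)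

end

section Main

variable [IsDomain R] {ι : Type*} [Fintype ι] [DecidableEq ι] (b : Basis ι ℤ R) {N : ℕ}
  (φ : R → ℝ) (p : R)

omit [IsDomain R] in
lemma ne_zero_of_inv (hN : 2 ≤ N) (hdig : ∀ x : R, ∃! c : Fin N, p ∣ x - ((c : ℕ) : R)) {g : R}
    (hg : ∃ h, p ∣ g * h - 1) : g ≠ 0 := by
  rintro rfl
  obtain ⟨h, hh⟩ := hg
  apply not_unit p hdig hN
  rw [zero_mul, zero_sub, dvd_neg] at hh
  exact hh

omit [IsDomain R] in
lemma dvd_of_inv {g y : R} (hg : ∃ h, p ∣ g * h - 1) {n : ℕ} (h : p ^ n ∣ g * y) : p ^ n ∣ y := by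
  obtain ⟨h', c, hc⟩ := hg
  have hcop : IsCoprime (p ^ n) g := by
    apply IsCoprime.pow_left
    exact ⟨-c, h', by linear_combination hc⟩
  exact hcop.dvd_of_dvd_mul_left h

/-- The good event: there is no nonzero short vector. -/
def Good (n : ℕ) (a : Fin n → Fin N) (k : ℕ) : Prop :=
  ∀ f g : R, nrm b f < N ^ k → nrm b g < N ^ k →
    Ideal.Quotient.mk (Ideal.span {p ^ n}) (g * p) *
      Ideal.Quotient.mk (Ideal.span {p ^ n}) (val p a) =
      Ideal.Quotient.mk (Ideal.span {p ^ n}) f → f = 0 ∧ g = 0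

omit [IsDomain R] [DecidableEq ι] in
lemma good_zero (n : ℕ) (a : Fin n → Fin N) : Good b p n a 0 := by
  intro f g hf hg _
  rw [pow_zero, Nat.lt_one_iff, nrm_eq_zero] at hf hg
  exact ⟨hf, hg⟩

/-- The constant in the upper bound. -/
noncomputable def upC : ℕ := 6 * (nrm b (1 : R) + mulC b * nrm b p + 1)

lemma card_quot_pow (hdig : ∀ x : R, ∃! c : Fin N, p ∣ x - ((c : ℕ) : R)) (hp : p ≠ 0) (n : ℕ)
    [Fintype (R ⧸ Ideal.span {p ^ n})] :
    Fintype.card (R ⧸ Ideal.span {p ^ n}) = N ^ n := by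
  rw [← Fintype.card_of_bijective (bij p hdig hp n)]
  simp

/-- Upper bound from the good event. -/
lemma exists_small (hN : 2 ≤ N) (hdig : ∀ x : R, ∃! c : Fin N, p ∣ x - ((c : ℕ) : R))
    (hp : p ≠ 0) (n : ℕ) (a : Fin n → Fin N) (k : ℕ) (hk : 2 * Fintype.card ι * k ≤ n)
    (h : Good b p n a k) :
    ∃ f g : R, (∃ h, p ∣ g * h - 1) ∧ p ^ n ∣ f - g * val p a ∧
      nrm b f ≤ upC b p * N ^ (n - 2 * Fintype.card ι * k + k) ∧
      nrm b g ≤ upC b p * N ^ (n - 2 * Fintype.card ι * k + k) := by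
  have hfin : Finite (R ⧸ Ideal.span {p ^ n}) := finite_quot b _ (pow_ne_zero n hp)
  have := Fintype.ofFinite (R ⧸ Ideal.span {p ^ n})
  have hNpos : 0 < N := by omega
  set m := n - 2 * Fintype.card ι * k with hm
  have hcard : Fintype.card (R ⧸ Ideal.span {p ^ n}) <
      (N ^ m + 1) * (N ^ k) ^ (2 * Fintype.card ι) := by
    rw [card_quot_pow p hdig hp n, ← pow_mul, add_mul, one_mul, ← pow_add]
    have : m + k * (2 * Fintype.card ι) = n := by
      rw [mul_comm k]
      omega
    rw [this]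
    have : 0 < N ^ (k * (2 * Fintype.card ι)) := by positivity
    omega
  obtain ⟨f, g, hf, hg, hfg⟩ := exists_rep b (p ^ n) p (N ^ k) (by positivity)
    (Ideal.Quotient.mk (Ideal.span {p ^ n}) (val p a)) h (N ^ m + 1) hcard
  have hbound : 3 * (N ^ m + 1) * N ^ k ≤ 6 * N ^ (m + k) := by
    have h1 : 1 ≤ N ^ m := Nat.one_le_pow _ _ hNpos
    calc 3 * (N ^ m + 1) * N ^ k ≤ 3 * (N ^ m + N ^ m) * N ^ k := by gcongr
      _ = 6 * N ^ (m + k) := by rw [pow_add]; ring
  refine ⟨f, 1 + g * p, ⟨1, g, by ring⟩, ?_, ?_, ?_⟩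
  · rw [← Ideal.mem_span_singleton]
    apply (Ideal.Quotient.mk_eq_mk_iff_sub_mem _ _).mp
    rw [← hfg, map_mul]
  · refine (hf.trans hbound).trans ?_
    unfold upC
    apply Nat.mul_le_mul_right
    omega
  · refine (nrm_add_le b _ _).trans ?_
    have h2 := nrm_mul_le b g p
    have h3 : nrm b g ≤ 6 * N ^ (m + k) := hg.trans hbound
    have h4 : 1 ≤ 6 * N ^ (m + k) := by
      have : 1 ≤ N ^ (m + k) := Nat.one_le_pow _ _ hNpos
      omega
    calc nrm b (1 : R) + nrm b (g * p)
        ≤ nrm b (1 : R) * (6 * N ^ (m + k)) + mulC b * (6 * N ^ (m + k) * nrm b p) := by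
          apply add_le_add
          · exact Nat.le_mul_of_pos_right _ h4
          · exact h2.trans (Nat.mul_le_mul_left _ (Nat.mul_le_mul_right _ h3))
      _ = (6 * (nrm b (1 : R) + mulC b * nrm b p)) * N ^ (m + k) := by ring
      _ ≤ upC b p * N ^ (m + k) := by
          unfold upC
          apply Nat.mul_le_mul_right
          omega

open Classical in
/-- Few sequences are bad. -/
lemma card_bad (hN : 2 ≤ N) (hdig : ∀ x : R, ∃! c : Fin N, p ∣ x - ((c : ℕ) : R))
    (hp : p ≠ 0) (n k : ℕ) :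
    (Finset.univ.filter fun a : Fin n → Fin N => ¬ Good b p n a k).card ≤
      cntC b p * (N ^ (2 * Fintype.card ι)) ^ k := by
  have hfin : Finite (R ⧸ Ideal.span {p ^ n}) := finite_quot b _ (pow_ne_zero n hp)
  have := Fintype.ofFinite (R ⧸ Ideal.span {p ^ n})
  have h1 := count_two b (p ^ n) p hp (N ^ k) (by positivity)
  rw [← pow_mul, mul_comm k, pow_mul] at h1
  refine le_trans ?_ h1
  rw [← Fintype.card_subtype, ← Nat.card_eq_fintype_card]
  refine Nat.card_le_card_of_injective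
    (fun a => ⟨Ideal.Quotient.mk (Ideal.span {p ^ n}) (val p a.1), ?_⟩) ?_
  · have ha := a.2
    unfold Good at ha
    push Not at ha
    obtain ⟨f, g, hf, hg, hfg, hne⟩ := ha
    refine ⟨f, g, ?_, hf, hg, hfg⟩
    by_cases h : f = 0
    · exact Or.inr (hne h)
    · exact Or.inl h
  · intro a a' h
    apply Subtype.ext
    apply (bij p hdig hp n).1
    exact congrArg Subtype.val h

/-- The event that there is a short representation. -/
def Short (n : ℕ) (a : Fin n → Fin N) (k : ℕ) : Prop :=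
  ∃ f g : R, (∃ h, p ∣ g * h - 1) ∧ p ^ n ∣ f - g * val p a ∧ nrm b f < N ^ k ∧ nrm b g < N ^ k

omit [DecidableEq ι] in
open Classical in
/-- Few sequences have a short representation. -/
lemma card_short (hN : 2 ≤ N) (hdig : ∀ x : R, ∃! c : Fin N, p ∣ x - ((c : ℕ) : R))
    (hp : p ≠ 0) (n k : ℕ) :
    (Finset.univ.filter fun a : Fin n → Fin N => Short b p n a k).card ≤
      2 ^ (2 * Fintype.card ι) * (N ^ (2 * Fintype.card ι)) ^ k := by
  have h1 : (box b (N ^ k - 1) ×ˢ box b (N ^ k - 1)).card ≤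
      2 ^ (2 * Fintype.card ι) * (N ^ (2 * Fintype.card ι)) ^ k := by
    rw [Finset.card_product, card_box, ← pow_add]
    have h0 : 0 < N ^ k := by positivity
    calc (2 * (N ^ k - 1) + 1) ^ (Fintype.card ι + Fintype.card ι)
        ≤ (2 * N ^ k) ^ (Fintype.card ι + Fintype.card ι) :=
          Nat.pow_le_pow_left (by omega) _
      _ = 2 ^ (2 * Fintype.card ι) * (N ^ (2 * Fintype.card ι)) ^ k := by
          rw [mul_pow, ← two_mul, ← pow_mul, ← pow_mul, mul_comm k]
  refine le_trans ?_ h1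
  have hch : ∀ a : Fin n → Fin N, Short b p n a k → ∃ w : R × R, (∃ h, p ∣ w.2 * h - 1) ∧
      p ^ n ∣ w.1 - w.2 * val p a ∧ nrm b w.1 < N ^ k ∧ nrm b w.2 < N ^ k := by
    rintro a ⟨f, g, h⟩
    exact ⟨(f, g), h⟩
  let F : (Fin n → Fin N) → R × R := fun a => if h : Short b p n a k then (hch a h).choose else 0
  have hF : ∀ a, Short b p n a k → (∃ h, p ∣ (F a).2 * h - 1) ∧
      p ^ n ∣ (F a).1 - (F a).2 * val p a ∧ nrm b (F a).1 < N ^ k ∧ nrm b (F a).2 < N ^ k := by
    intro a h
    have : F a = (hch a h).choose := by simp only [F, dif_pos h]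
    rw [this]
    exact (hch a h).choose_spec
  refine Finset.card_le_card_of_injOn F ?_ ?_
  · intro a ha
    have ha2 : Short b p n a k := by simpa using ha
    obtain ⟨_, _, h3, h4⟩ := hF a ha2
    simp only [Finset.coe_product, Set.mem_prod, Finset.mem_coe, mem_box]
    omega
  · intro a ha a' ha' heq
    have ha2 : Short b p n a k := by simpa using ha
    have ha2' : Short b p n a' k := by simpa using ha'
    obtain ⟨h1, h2, _, _⟩ := hF a ha2
    obtain ⟨_, h2', _, _⟩ := hF a' ha2'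
    rw [← heq] at h2'
    apply val_inj p hdig hp n
    apply dvd_of_inv p h1
    have := dvd_sub h2' h2
    have he : (F a).1 - (F a).2 * val p a' - ((F a).1 - (F a).2 * val p a) =
        (F a).2 * (val p a - val p a') := by ring
    rwa [he] at this

/-- The set of the sizes of the fractions `f / g` whose expansion starts with `a`. -/
def sizeSet (n : ℕ) (a : Fin n → Fin N) : Set ℝ :=
  {s | ∃ f g : R, (∃ h, p ∣ g * h - 1) ∧ p ^ n ∣ f - g * val p a ∧ s = regSize φ f g}

open Classical in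
theorem avg_upper (hN : 2 ≤ N) (hd : 0 < Fintype.card ι)
    (hdig : ∀ x : R, ∃! c : Fin N, p ∣ x - ((c : ℕ) : R)) (hp : p ≠ 0)
    (hφ : ∀ x ≠ 0, φ x ≤ Fintype.card ι * Real.logb N (nrm b x) + Fintype.card ι)
    (n : ℕ) (lam : (Fin n → Fin N) → ℝ) (hlam : ∀ a, IsLeast (sizeSet φ p n a) (lam a)) :
    (∑ a, lam a) ≤ N ^ n * ((n : ℝ) / 2 + (Fintype.card ι * Real.logb N (upC b p) +
      Fintype.card ι + Fintype.card ι * (2 * Fintype.card ι - 1)) +
      Fintype.card ι * (2 * Fintype.card ι - 1) * (2 * cntC b p)) := by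
  set d := Fintype.card ι with hd'
  set K := n / (2 * d) with hK
  have hN1 : (1 : ℝ) < N := by exact_mod_cast (by omega : 1 < N)
  have hN0 : (0 : ℝ) < N := by linarith
  have h2d : 0 < 2 * d := by omega
  have hKn : 2 * d * K ≤ n := Nat.mul_div_le n (2 * d)
  have hnK : n < 2 * d * K + 2 * d := by
    have := Nat.lt_mul_div_succ n h2d
    rw [Nat.mul_add] at this
    simpa using this
  have hd1 : (1 : ℝ) ≤ d := by exact_mod_cast hd
  set C0 : ℝ := d * Real.logb N (upC b p) + d + d * (2 * d - 1) with hC0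
  -- the number of bad indices
  let B : (Fin n → Fin N) → ℕ := fun a => ((Finset.Icc 1 K).filter fun k => ¬ Good b p n a k).card
  -- pointwise bound
  have hpt : ∀ a, lam a ≤ (n : ℝ) / 2 + C0 + d * (2 * d - 1) * B a := by
    intro a
    set k := Nat.findGreatest (Good b p n a) K with hk
    have hgood : Good b p n a k :=
      Nat.findGreatest_spec (m := 0) (Nat.zero_le _) (good_zero b p n a)
    have hkK : k ≤ K := Nat.findGreatest_le _
    have hB : K ≤ k + B a := findGreatest_bad (Good b p n a) K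
    have hkn : 2 * d * k ≤ n := (Nat.mul_le_mul_left _ hkK).trans hKn
    obtain ⟨f, g, hg, hfg, hf1, hg1⟩ := exists_small b p hN hdig hp n a k hkn hgood
    have h1 : lam a ≤ regSize φ f g := (hlam a).2 ⟨f, g, hg, hfg, rfl⟩
    have h2 := regSize_le b φ hN hφ (ne_zero_of_inv p hN hdig hg) hf1 hg1
    have hup : (upC b p : ℝ) ≠ 0 := by
      unfold upC
      positivity
    have h3 : Real.logb N ((upC b p * N ^ (n - 2 * d * k + k) : ℕ) : ℝ) =
        Real.logb N (upC b p) + (n - 2 * d * k + k : ℕ) := by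
      rw [Nat.cast_mul, Nat.cast_pow, Real.logb_mul hup (by positivity), Real.logb_pow,
        Real.logb_self_eq_one hN1, mul_one]
    rw [h3] at h2
    have h4 : ((n - 2 * d * k + k : ℕ) : ℝ) = n - 2 * d * k + k := by
      rw [Nat.cast_add, Nat.cast_sub hkn]
      push_cast
      ring
    rw [h4] at h2
    have hB' : (K : ℝ) ≤ k + B a := by exact_mod_cast hB
    have hnK' : (n : ℝ) ≤ 2 * d * K + 2 * d := by exact_mod_cast hnK.le
    have h5 : (0 : ℝ) ≤ 2 * d - 1 := by linarith
    -- d (n - (2d-1) k) ≤ n/2 + d (2d-1) + d (2d-1) B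
    have h6 : (d : ℝ) * ((n : ℝ) - 2 * d * k + k) ≤ n / 2 + d * (2 * d - 1) +
        d * (2 * d - 1) * B a := by
      have h7 : (d : ℝ) * ((n : ℝ) - 2 * d * k + k) = d * n - d * (2 * d - 1) * k := by ring
      have h8 : (d : ℝ) * (2 * d - 1) * (K - B a) ≤ d * (2 * d - 1) * k := by
        apply mul_le_mul_of_nonneg_left _ (by positivity)
        linarith
      have h9 : (2 * (d : ℝ) - 1) * n ≤ (2 * d - 1) * (2 * d * K + 2 * d) :=
        mul_le_mul_of_nonneg_left hnK' h5
      rw [h7]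
      nlinarith
    calc lam a ≤ (d : ℝ) * (Real.logb N (upC b p) + ((n : ℝ) - 2 * d * k + k)) + d :=
          h1.trans h2
      _ = (d : ℝ) * ((n : ℝ) - 2 * d * k + k) + (d * Real.logb N (upC b p) + d) := by ring
      _ ≤ _ := by rw [hC0]; linarith
  -- summation of the number of bad indices
  have hsumB : ∑ a, B a ≤ 2 * cntC b p * N ^ n := by
    have h1 : ∑ a, B a = ∑ k ∈ Finset.Icc 1 K,
        (Finset.univ.filter fun a : Fin n → Fin N => ¬ Good b p n a k).card := by
      simp only [B, Finset.card_filter]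
      rw [Finset.sum_comm]
    rw [h1]
    calc ∑ k ∈ Finset.Icc 1 K, (Finset.univ.filter fun a : Fin n → Fin N =>
          ¬ Good b p n a k).card ≤ ∑ k ∈ Finset.Icc 1 K, cntC b p * (N ^ (2 * d)) ^ k :=
          Finset.sum_le_sum fun k _ => card_bad b p hN hdig hp n k
      _ = cntC b p * ∑ k ∈ Finset.Icc 1 K, (N ^ (2 * d)) ^ k := by rw [Finset.mul_sum]
      _ ≤ cntC b p * (2 * (N ^ (2 * d)) ^ K) := by
          apply Nat.mul_le_mul_left
          apply geom_le
          calc 2 ≤ N := hN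
            _ = N ^ 1 := (pow_one N).symm
            _ ≤ N ^ (2 * d) := Nat.pow_le_pow_right (by omega) (by omega)
      _ ≤ cntC b p * (2 * N ^ n) := by
          apply Nat.mul_le_mul_left
          apply Nat.mul_le_mul_left
          rw [← pow_mul]
          exact Nat.pow_le_pow_right (by omega) hKn
      _ = 2 * cntC b p * N ^ n := by ring
  have hcard : (Fintype.card (Fin n → Fin N) : ℝ) = N ^ n := by simp
  calc ∑ a, lam a ≤ ∑ a : Fin n → Fin N, ((n : ℝ) / 2 + C0 + d * (2 * d - 1) * B a) :=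
        Finset.sum_le_sum fun a _ => hpt a
    _ = N ^ n * ((n : ℝ) / 2 + C0) + d * (2 * d - 1) * ((∑ a, B a : ℕ) : ℝ) := by
        rw [Finset.sum_add_distrib, Finset.sum_const, Finset.card_univ, nsmul_eq_mul, hcard,
          ← Finset.mul_sum]
        push_cast
        ring
    _ ≤ N ^ n * ((n : ℝ) / 2 + C0) + d * (2 * d - 1) * (2 * cntC b p * N ^ n) := by
        have h1 : ((∑ a, B a : ℕ) : ℝ) ≤ 2 * cntC b p * N ^ n := by exact_mod_cast hsumB
        have h5 : (0 : ℝ) ≤ 2 * d - 1 := by linarith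
        have h6 : (0 : ℝ) ≤ d * (2 * d - 1) := by positivity
        linarith [mul_le_mul_of_nonneg_left h1 h6]
    _ = _ := by ring

open Classical in
theorem avg_lower (hN : 2 ≤ N) (hd : 0 < Fintype.card ι)
    (hdig : ∀ x : R, ∃! c : Fin N, p ∣ x - ((c : ℕ) : R)) (hp : p ≠ 0)
    (hφ : ∀ x ≠ 0, Fintype.card ι * Real.logb N (nrm b x) ≤ φ x)
    (n : ℕ) (lam : (Fin n → Fin N) → ℝ) (hlam : ∀ a, IsLeast (sizeSet φ p n a) (lam a)) :
    N ^ n * ((n : ℝ) / 2 - Fintype.card ι -
      Fintype.card ι * (2 * 2 ^ (2 * Fintype.card ι))) ≤ (∑ a, lam a) := by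
  set d := Fintype.card ι with hd'
  set K := n / (2 * d) with hK
  have hN1 : (1 : ℝ) < N := by exact_mod_cast (by omega : 1 < N)
  have hN0 : (0 : ℝ) < N := by linarith
  have h2d : 0 < 2 * d := by omega
  have hKn : 2 * d * K ≤ n := Nat.mul_div_le n (2 * d)
  have hnK : n < 2 * d * K + 2 * d := by
    have := Nat.lt_mul_div_succ n h2d
    rw [Nat.mul_add] at this
    simpa using this
  have hd1 : (1 : ℝ) ≤ d := by exact_mod_cast hd
  let B : (Fin n → Fin N) → ℕ := fun a => ((Finset.Icc 1 K).filter fun k =>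
    ¬ ¬ Short b p n a k).card
  have hpt : ∀ a, (n : ℝ) / 2 - d - d * B a ≤ lam a := by
    intro a
    set k := Nat.findGreatest (fun k => ¬ Short b p n a k) K with hk
    have h0 : ¬ Short b p n a 0 := by
      rintro ⟨f, g, hg, _, _, hg0⟩
      rw [pow_zero, Nat.lt_one_iff, nrm_eq_zero] at hg0
      exact ne_zero_of_inv p hN hdig hg hg0
    have hgood : ¬ Short b p n a k :=
      Nat.findGreatest_spec (P := fun k => ¬ Short b p n a k) (m := 0) (Nat.zero_le _) h0
    have hB : K ≤ k + B a := findGreatest_bad (fun k => ¬ Short b p n a k) K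
    obtain ⟨f, g, hg, hfg, hs⟩ := (hlam a).1
    have h1 : N ^ k ≤ max (nrm b f) (nrm b g) := by
      by_contra hlt
      push Not at hlt
      exact hgood ⟨f, g, hg, hfg, (le_max_left _ _).trans_lt hlt, (le_max_right _ _).trans_lt hlt⟩
    have h2 := le_regSize b φ hN hφ (ne_zero_of_inv p hN hdig hg) (by positivity) h1
    rw [← hs] at h2
    have h3 : Real.logb N ((N ^ k : ℕ) : ℝ) = k := by
      push_cast
      rw [Real.logb_pow, Real.logb_self_eq_one hN1, mul_one]
    rw [h3] at h2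
    have hB' : (K : ℝ) ≤ k + B a := by exact_mod_cast hB
    have hnK' : (n : ℝ) ≤ 2 * d * K + 2 * d := by exact_mod_cast hnK.le
    have h4 : (d : ℝ) * K ≤ d * (k + B a) := mul_le_mul_of_nonneg_left hB' (by positivity)
    have h5 : (Fintype.card ι : ℝ) = d := rfl
    rw [h5] at h2
    linarith
  have hsumB : ∑ a, B a ≤ 2 * 2 ^ (2 * d) * N ^ n := by
    have h1 : ∑ a, B a = ∑ k ∈ Finset.Icc 1 K,
        (Finset.univ.filter fun a : Fin n → Fin N => Short b p n a k).card := by
      simp only [B, Finset.card_filter, not_not]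
      rw [Finset.sum_comm]
    rw [h1]
    calc ∑ k ∈ Finset.Icc 1 K, (Finset.univ.filter fun a : Fin n → Fin N =>
          Short b p n a k).card ≤ ∑ k ∈ Finset.Icc 1 K, 2 ^ (2 * d) * (N ^ (2 * d)) ^ k :=
          Finset.sum_le_sum fun k _ => card_short b p hN hdig hp n k
      _ = 2 ^ (2 * d) * ∑ k ∈ Finset.Icc 1 K, (N ^ (2 * d)) ^ k := by rw [Finset.mul_sum]
      _ ≤ 2 ^ (2 * d) * (2 * (N ^ (2 * d)) ^ K) := by
          apply Nat.mul_le_mul_left
          apply geom_le
          calc 2 ≤ N := hN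
            _ = N ^ 1 := (pow_one N).symm
            _ ≤ N ^ (2 * d) := Nat.pow_le_pow_right (by omega) (by omega)
      _ ≤ 2 ^ (2 * d) * (2 * N ^ n) := by
          apply Nat.mul_le_mul_left
          apply Nat.mul_le_mul_left
          rw [← pow_mul]
          exact Nat.pow_le_pow_right (by omega) hKn
      _ = 2 * 2 ^ (2 * d) * N ^ n := by ring
  have hcard : (Fintype.card (Fin n → Fin N) : ℝ) = N ^ n := by simp
  calc (N : ℝ) ^ n * ((n : ℝ) / 2 - d - d * (2 * 2 ^ (2 * d)))
      = N ^ n * ((n : ℝ) / 2 - d) - d * (2 * 2 ^ (2 * d) * N ^ n) := by ring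
    _ ≤ N ^ n * ((n : ℝ) / 2 - d) - d * ((∑ a, B a : ℕ) : ℝ) := by
        have h1 : ((∑ a, B a : ℕ) : ℝ) ≤ 2 * 2 ^ (2 * d) * N ^ n := by exact_mod_cast hsumB
        linarith [mul_le_mul_of_nonneg_left h1 (by positivity : (0 : ℝ) ≤ d)]
    _ = ∑ a : Fin n → Fin N, ((n : ℝ) / 2 - d - d * B a) := by
        rw [Finset.sum_sub_distrib, Finset.sum_const, Finset.card_univ, nsmul_eq_mul, hcard,
          ← Finset.mul_sum]
        push_cast
        ring
    _ ≤ ∑ a, lam a := Finset.sum_le_sum fun a _ => hpt a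

end Main

end Pool.Agent.Helper39K9.AFSR
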